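import Mathlib

/-!
# EHP (MP_ff60c2_an), block E1: the energy identity on a rectangle

`G (l, φ)` is `C²`, `2π`-periodic in `φ` (only used on the boundary), `F, H, Ψ` are `C¹` on an open set `U` containing all points
`(l, G (l, φ))`, with `H_g = F_g²`, `Ψ_g = 2 F_l F_g - H_l`. For `u = F (l, G (l, φ))`:

`u_l² + u_φ² = (F_l² - Ψ_l)(l, G) + ∂_l (H(l,G) G_l + Ψ(l,G)) + ∂_φ (H(l,G) G_φ) - H(l,G) (G_ll + G_φφ)`.
-/

set_option autoImplicit false

open MeasureTheory Set intervalIntegral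
open scoped Real Interval

noncomputable section

namespace Pool.Agent.H23.EH

/-- partial derivative in the first variable -/
def d1 (f : ℝ × ℝ → ℝ) (x : ℝ × ℝ) : ℝ := fderiv ℝ f x (1, 0)

/-- partial derivative in the second variable -/
def d2 (f : ℝ × ℝ → ℝ) (x : ℝ × ℝ) : ℝ := fderiv ℝ f x (0, 1)

/-- the graph point `(l, G (l, φ))` -/
def gp (G : ℝ × ℝ → ℝ) (x : ℝ × ℝ) : ℝ × ℝ := (x.1, G x)

theorem hasFDerivAt_gp {G : ℝ × ℝ → ℝ} {x : ℝ × ℝ} (hG : DifferentiableAt ℝ G x) :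
    HasFDerivAt (gp G) ((ContinuousLinearMap.fst ℝ ℝ ℝ).prod (fderiv ℝ G x)) x :=
  hasFDerivAt_fst.prodMk hG.hasFDerivAt

theorem fderiv_apply_eq (f : ℝ × ℝ → ℝ) (x : ℝ × ℝ) (a b : ℝ) :
    fderiv ℝ f x (a, b) = a * d1 f x + b * d2 f x := by
  have h : ((a, b) : ℝ × ℝ) = a • ((1, 0) : ℝ × ℝ) + b • ((0, 1) : ℝ × ℝ) := by
    ext <;> simp
  rw [h, map_add, map_smul, map_smul]
  rfl

theorem d1_comp_gp {G F : ℝ × ℝ → ℝ} {x : ℝ × ℝ} (hG : DifferentiableAt ℝ G x)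
    (hF : DifferentiableAt ℝ F (gp G x)) :
    d1 (fun y => F (gp G y)) x = d1 F (gp G x) + d2 F (gp G x) * d1 G x := by
  have h := hF.hasFDerivAt.comp x (hasFDerivAt_gp hG)
  have h2 : fderiv ℝ (fun y => F (gp G y)) x =
      (fderiv ℝ F (gp G x)).comp ((ContinuousLinearMap.fst ℝ ℝ ℝ).prod (fderiv ℝ G x)) :=
    h.fderiv
  unfold d1
  rw [h2]
  change fderiv ℝ F (gp G x) ((1 : ℝ), fderiv ℝ G x (1, 0)) = _
  rw [fderiv_apply_eq, one_mul, mul_comm]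
  rfl

theorem d2_comp_gp {G F : ℝ × ℝ → ℝ} {x : ℝ × ℝ} (hG : DifferentiableAt ℝ G x)
    (hF : DifferentiableAt ℝ F (gp G x)) :
    d2 (fun y => F (gp G y)) x = d2 F (gp G x) * d2 G x := by
  have h := hF.hasFDerivAt.comp x (hasFDerivAt_gp hG)
  have h2 : fderiv ℝ (fun y => F (gp G y)) x =
      (fderiv ℝ F (gp G x)).comp ((ContinuousLinearMap.fst ℝ ℝ ℝ).prod (fderiv ℝ G x)) :=
    h.fderiv
  unfold d2
  rw [h2]
  change fderiv ℝ F (gp G x) ((0 : ℝ), fderiv ℝ G x (0, 1)) = _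
  rw [fderiv_apply_eq, zero_mul, zero_add, mul_comm]
  rfl

theorem d1_mul {f g : ℝ × ℝ → ℝ} {x : ℝ × ℝ} (hf : DifferentiableAt ℝ f x)
    (hg : DifferentiableAt ℝ g x) :
    d1 (fun y => f y * g y) x = d1 f x * g x + f x * d1 g x := by
  change fderiv ℝ (f * g) x (1, 0) = _
  rw [(hf.hasFDerivAt.mul hg.hasFDerivAt).fderiv]
  simp [d1]
  ring

theorem d2_mul {f g : ℝ × ℝ → ℝ} {x : ℝ × ℝ} (hf : DifferentiableAt ℝ f x)
    (hg : DifferentiableAt ℝ g x) :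
    d2 (fun y => f y * g y) x = d2 f x * g x + f x * d2 g x := by
  change fderiv ℝ (f * g) x (0, 1) = _
  rw [(hf.hasFDerivAt.mul hg.hasFDerivAt).fderiv]
  simp [d2]
  ring

theorem d1_add {f g : ℝ × ℝ → ℝ} {x : ℝ × ℝ} (hf : DifferentiableAt ℝ f x)
    (hg : DifferentiableAt ℝ g x) : d1 (fun y => f y + g y) x = d1 f x + d1 g x := by
  change fderiv ℝ (f + g) x (1, 0) = _
  rw [(hf.hasFDerivAt.add hg.hasFDerivAt).fderiv]
  rfl

/-- the pointwise identity -/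
theorem energy_pointwise {G F H Ψ : ℝ × ℝ → ℝ} (hG : ContDiff ℝ 2 G) {U : Set (ℝ × ℝ)}
    (hU : IsOpen U) (hF : ContDiffOn ℝ 1 F U) (hH : ContDiffOn ℝ 1 H U)
    (hΨ : ContDiffOn ℝ 1 Ψ U) (hHg : ∀ y ∈ U, d2 H y = d2 F y ^ 2)
    (hΨg : ∀ y ∈ U, d2 Ψ y = 2 * d1 F y * d2 F y - d1 H y) (x : ℝ × ℝ) (hx : gp G x ∈ U) :
    d1 (fun y => F (gp G y)) x ^ 2 + d2 (fun y => F (gp G y)) x ^ 2 +
        H (gp G x) * (d1 (d1 G) x + d2 (d2 G) x) =
      (d1 F (gp G x) ^ 2 - d1 Ψ (gp G x)) +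
        (d1 (fun y => H (gp G y) * d1 G y + Ψ (gp G y)) x +
          d2 (fun y => H (gp G y) * d2 G y) x) := by
  have hGd : DifferentiableAt ℝ G x := (hG.differentiable (by norm_num)).differentiableAt
  have hFd : DifferentiableAt ℝ F (gp G x) :=
    (hF.differentiableOn (by norm_num)).differentiableAt (hU.mem_nhds hx)
  have hHd : DifferentiableAt ℝ H (gp G x) :=
    (hH.differentiableOn (by norm_num)).differentiableAt (hU.mem_nhds hx)
  have hΨd : DifferentiableAt ℝ Ψ (gp G x) :=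
    (hΨ.differentiableOn (by norm_num)).differentiableAt (hU.mem_nhds hx)
  have hGf : ContDiff ℝ 1 (fderiv ℝ G) := hG.fderiv_right (by norm_num)
  have hG1 : ContDiff ℝ 1 (d1 G) := hGf.clm_apply contDiff_const
  have hG2 : ContDiff ℝ 1 (d2 G) := hGf.clm_apply contDiff_const
  have hG1d : DifferentiableAt ℝ (d1 G) x := (hG1.differentiable (by norm_num)).differentiableAt
  have hG2d : DifferentiableAt ℝ (d2 G) x := (hG2.differentiable (by norm_num)).differentiableAt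
  have hHc : DifferentiableAt ℝ (fun y => H (gp G y)) x :=
    hHd.comp x (hasFDerivAt_gp hGd).differentiableAt
  have hΨc : DifferentiableAt ℝ (fun y => Ψ (gp G y)) x :=
    hΨd.comp x (hasFDerivAt_gp hGd).differentiableAt
  have hm : DifferentiableAt ℝ (fun y => H (gp G y) * d1 G y) x := hHc.mul hG1d
  rw [d1_comp_gp hGd hFd, d2_comp_gp hGd hFd, d1_add hm hΨc, d1_mul hHc hG1d,
    d2_mul hHc hG2d, d1_comp_gp hGd hHd, d2_comp_gp hGd hHd, d1_comp_gp hGd hΨd,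
    hHg _ hx, hΨg _ hx]
  ring

theorem continuousOn_d1_comp {G F : ℝ × ℝ → ℝ} (hG : ContDiff ℝ 2 G) {U : Set (ℝ × ℝ)}
    (hU : IsOpen U) (hF : ContDiffOn ℝ 1 F U) {S : Set (ℝ × ℝ)} (hS : ∀ x ∈ S, gp G x ∈ U) :
    ContinuousOn (fun x => d1 F (gp G x)) S := by
  have h1 : ContinuousOn (fderiv ℝ F) U := hF.continuousOn_fderiv_of_isOpen hU le_rfl
  have h2 : ContinuousOn (fun x => fderiv ℝ F (gp G x)) S :=
    h1.comp (continuous_fst.prodMk hG.continuous).continuousOn hS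
  exact h2.clm_apply continuousOn_const

theorem continuousOn_d2_comp {G F : ℝ × ℝ → ℝ} (hG : ContDiff ℝ 2 G) {U : Set (ℝ × ℝ)}
    (hU : IsOpen U) (hF : ContDiffOn ℝ 1 F U) {S : Set (ℝ × ℝ)} (hS : ∀ x ∈ S, gp G x ∈ U) :
    ContinuousOn (fun x => d2 F (gp G x)) S := by
  have h1 : ContinuousOn (fderiv ℝ F) U := hF.continuousOn_fderiv_of_isOpen hU le_rfl
  have h2 : ContinuousOn (fun x => fderiv ℝ F (gp G x)) S :=
    h1.comp (continuous_fst.prodMk hG.continuous).continuousOn hS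
  exact h2.clm_apply continuousOn_const

theorem intervalIntegrable_integral {h : ℝ × ℝ → ℝ} {l₁ l₂ a b : ℝ} (hl : l₁ ≤ l₂) (hab : a ≤ b)
    (hc : ContinuousOn h (Icc l₁ l₂ ×ˢ Icc a b)) :
    IntervalIntegrable (fun l => ∫ φ in a..b, h (l, φ)) volume l₁ l₂ := by
  have h1 : IntegrableOn h (Icc l₁ l₂ ×ˢ Icc a b) :=
    hc.integrableOn_compact (isCompact_Icc.prod isCompact_Icc)
  have h2 : Integrable h ((volume.restrict (Icc l₁ l₂)).prod (volume.restrict (Icc a b))) := by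
    rw [Measure.prod_restrict]
    exact h1
  have h3 := h2.integral_prod_left
  rw [intervalIntegrable_iff_integrableOn_Icc_of_le hl]
  refine Integrable.congr h3 (Filter.Eventually.of_forall fun l => ?_)
  change (∫ y in Icc a b, h (l, y)) = ∫ φ in a..b, h (l, φ)
  rw [intervalIntegral.integral_of_le hab, integral_Icc_eq_integral_Ioc]

/-- the energy identity on the rectangle `[l₁, l₂] × [0, 2π]` -/
theorem energy_rect {G F H Ψ : ℝ × ℝ → ℝ} (hG : ContDiff ℝ 2 G)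
    (hper : ∀ l φ, G (l, φ + 2 * π) = G (l, φ)) {U : Set (ℝ × ℝ)}
    (hU : IsOpen U) (hF : ContDiffOn ℝ 1 F U) (hH : ContDiffOn ℝ 1 H U)
    (hΨ : ContDiffOn ℝ 1 Ψ U) (hHg : ∀ y ∈ U, d2 H y = d2 F y ^ 2)
    (hΨg : ∀ y ∈ U, d2 Ψ y = 2 * d1 F y * d2 F y - d1 H y) {l₁ l₂ : ℝ} (hl : l₁ ≤ l₂)
    (hx : ∀ l ∈ Icc l₁ l₂, ∀ φ ∈ Icc 0 (2 * π), (l, G (l, φ)) ∈ U) :
    (∫ l in l₁..l₂, ∫ φ in 0..2 * π,
        (d1 (fun y => F (gp G y)) (l, φ) ^ 2 + d2 (fun y => F (gp G y)) (l, φ) ^ 2 +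
        H (gp G (l, φ)) * (d1 (d1 G) (l, φ) + d2 (d2 G) (l, φ)))) =
      (∫ l in l₁..l₂, ∫ φ in 0..2 * π, (d1 F (gp G (l, φ)) ^ 2 - d1 Ψ (gp G (l, φ)))) +
      ((∫ φ in 0..2 * π, (H (gp G (l₂, φ)) * d1 G (l₂, φ) + Ψ (gp G (l₂, φ)))) -
        ∫ φ in 0..2 * π, (H (gp G (l₁, φ)) * d1 G (l₁, φ) + Ψ (gp G (l₁, φ)))) := by
  have hpi : (0 : ℝ) ≤ 2 * π := by positivity
  have hGf : ContDiff ℝ 1 (fderiv ℝ G) := hG.fderiv_right (by norm_num)
  have hG1 : ContDiff ℝ 1 (d1 G) := hGf.clm_apply contDiff_const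
  have hG2 : ContDiff ℝ 1 (d2 G) := hGf.clm_apply contDiff_const
  have hgp : ContDiff ℝ 2 (gp G) := contDiff_fst.prodMk hG
  -- the open set of admissible points
  let V : Set (ℝ × ℝ) := gp G ⁻¹' U
  have hV : IsOpen V := hU.preimage hgp.continuous
  have hmaps : MapsTo (gp G) V U := fun x hx => hx
  have hHc : ContDiffOn ℝ 1 (fun y => H (gp G y)) V :=
    hH.comp (hgp.of_le (by norm_num)).contDiffOn hmaps
  have hΨc : ContDiffOn ℝ 1 (fun y => Ψ (gp G y)) V :=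
    hΨ.comp (hgp.of_le (by norm_num)).contDiffOn hmaps
  let f : ℝ × ℝ → ℝ := fun y => H (gp G y) * d1 G y + Ψ (gp G y)
  let g : ℝ × ℝ → ℝ := fun y => H (gp G y) * d2 G y
  have hf : ContDiffOn ℝ 1 f V := (hHc.mul hG1.contDiffOn).add hΨc
  have hg : ContDiffOn ℝ 1 g V := hHc.mul hG2.contDiffOn
  have hRV : [[l₁, l₂]] ×ˢ [[0, 2 * π]] ⊆ V := by
    rintro ⟨l, φ⟩ ⟨h1, h2⟩
    rw [uIcc_of_le hl] at h1
    rw [uIcc_of_le hpi] at h2
    exact hx l h1 φ h2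
  have hfc : ContinuousOn (fderiv ℝ f) V := hf.continuousOn_fderiv_of_isOpen hV le_rfl
  have hgc : ContinuousOn (fderiv ℝ g) V := hg.continuousOn_fderiv_of_isOpen hV le_rfl
  have hcomp : IsCompact ([[l₁, l₂]] ×ˢ [[0, 2 * π]]) := isCompact_uIcc.prod isCompact_uIcc
  have hcont : ContinuousOn (fun x => fderiv ℝ f x (1, 0) + fderiv ℝ g x (0, 1))
      ([[l₁, l₂]] ×ˢ [[0, 2 * π]]) :=
    ((hfc.mono hRV).clm_apply continuousOn_const).add
      ((hgc.mono hRV).clm_apply continuousOn_const)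
  have hdiv := integral2_divergence_prod_of_hasFDerivAt_off_countable f g (fderiv ℝ f)
    (fderiv ℝ g) l₁ 0 l₂ (2 * π) ∅ countable_empty (hf.continuousOn.mono hRV)
    (hg.continuousOn.mono hRV) ?_ ?_ (hcont.integrableOn_compact hcomp)
  · -- boundary terms of g cancel by periodicity
    have hper2 : ∀ l, g (l, 2 * π) = g (l, 0) := by
      intro l
      have h0 : ∀ y : ℝ × ℝ, G (y + (0, 2 * π)) = G y := by
        rintro ⟨a, b⟩
        have := hper a b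
        simpa using this
      have h1 : d2 G (l, 2 * π) = d2 G (l, 0) := by
        unfold d2
        have h2 : (fun y : ℝ × ℝ => G (y + (0, 2 * π))) = G := funext h0
        have h3 : fderiv ℝ (fun y : ℝ × ℝ => G (y + (0, 2 * π))) (l, 0) =
            fderiv ℝ G ((l, 0) + (0, 2 * π)) := fderiv_comp_add_right _
        rw [h2] at h3
        rw [h3]
        simp
      have h4 : G (l, 2 * π) = G (l, 0) := by
        have := hper l 0
        simpa using this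
      change H (l, G (l, 2 * π)) * d2 G (l, 2 * π) = H (l, G (l, 0)) * d2 G (l, 0)
      rw [h1, h4]
    have hb : (∫ x in l₁..l₂, g (x, 2 * π)) = ∫ x in l₁..l₂, g (x, 0) := by
      refine intervalIntegral.integral_congr fun x _ => hper2 x
    rw [hb, sub_self, zero_add] at hdiv
    have hkey : (∫ l in l₁..l₂, ∫ φ in 0..2 * π,
        (d1 (fun y => F (gp G y)) (l, φ) ^ 2 + d2 (fun y => F (gp G y)) (l, φ) ^ 2 +
        H (gp G (l, φ)) * (d1 (d1 G) (l, φ) + d2 (d2 G) (l, φ)))) =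
        ∫ l in l₁..l₂, ((∫ φ in 0..2 * π, (d1 F (gp G (l, φ)) ^ 2 - d1 Ψ (gp G (l, φ)))) +
          ∫ φ in 0..2 * π, (fderiv ℝ f (l, φ) (1, 0) + fderiv ℝ g (l, φ) (0, 1))) := by
      refine intervalIntegral.integral_congr fun l hl' => ?_
      have hsec : ∀ φ ∈ [[0, 2 * π]], ((l, φ) : ℝ × ℝ) ∈ [[l₁, l₂]] ×ˢ [[0, 2 * π]] :=
        fun φ hφ => ⟨hl', hφ⟩
      have hc1 : ContinuousOn (fun φ : ℝ => ((l, φ) : ℝ × ℝ)) [[0, 2 * π]] := by fun_prop
      rw [← intervalIntegral.integral_add]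
      · refine intervalIntegral.integral_congr fun φ hφ => ?_
        exact energy_pointwise hG hU hF hH hΨ hHg hΨg (l, φ) (hRV (hsec φ hφ))
      · refine ContinuousOn.intervalIntegrable ?_
        have h5 : ContinuousOn (fun x : ℝ × ℝ => d1 F (gp G x) ^ 2 - d1 Ψ (gp G x))
            ([[l₁, l₂]] ×ˢ [[0, 2 * π]]) :=
          ((continuousOn_d1_comp hG hU hF hRV).pow 2).sub (continuousOn_d1_comp hG hU hΨ hRV)
        exact h5.comp hc1 hsec
      · exact (hcont.comp hc1 hsec).intervalIntegrable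
    rw [hkey, intervalIntegral.integral_add]
    · rw [hdiv]
    · have h5 : ContinuousOn (fun x : ℝ × ℝ => d1 F (gp G x) ^ 2 - d1 Ψ (gp G x))
          ([[l₁, l₂]] ×ˢ [[0, 2 * π]]) :=
        ((continuousOn_d1_comp hG hU hF hRV).pow 2).sub (continuousOn_d1_comp hG hU hΨ hRV)
      rw [uIcc_of_le hl, uIcc_of_le hpi] at h5
      exact intervalIntegrable_integral hl hpi h5
    · rw [uIcc_of_le hl, uIcc_of_le hpi] at hcont
      exact intervalIntegrable_integral hl hpi hcont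
  · intro x hx'
    have h1 : x ∈ V := hRV (prod_mono Ioo_subset_Icc_self Ioo_subset_Icc_self hx'.1)
    exact ((hf.differentiableOn one_ne_zero).differentiableAt (hV.mem_nhds h1)).hasFDerivAt
  · intro x hx'
    have h1 : x ∈ V := hRV (prod_mono Ioo_subset_Icc_self Ioo_subset_Icc_self hx'.1)
    exact ((hg.differentiableOn one_ne_zero).differentiableAt (hV.mem_nhds h1)).hasFDerivAt

/-- the energy inequality on the rectangle `[l₁, l₂] × [0, 2π]` for subharmonic `G` and `H ≥ 0` -/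
theorem energy_rect_le {G F H Ψ : ℝ × ℝ → ℝ} (hG : ContDiff ℝ 2 G)
    (hper : ∀ l φ, G (l, φ + 2 * π) = G (l, φ)) {U : Set (ℝ × ℝ)}
    (hU : IsOpen U) (hF : ContDiffOn ℝ 1 F U) (hH : ContDiffOn ℝ 1 H U)
    (hΨ : ContDiffOn ℝ 1 Ψ U) (hHg : ∀ y ∈ U, d2 H y = d2 F y ^ 2)
    (hΨg : ∀ y ∈ U, d2 Ψ y = 2 * d1 F y * d2 F y - d1 H y) {l₁ l₂ : ℝ} (hl : l₁ ≤ l₂)
    (hx : ∀ l ∈ Icc l₁ l₂, ∀ φ ∈ Icc 0 (2 * π), (l, G (l, φ)) ∈ U)
    (hpos : ∀ l ∈ Icc l₁ l₂, ∀ φ ∈ Icc 0 (2 * π), 0 ≤ H (l, G (l, φ)))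
    (hsub : ∀ l ∈ Icc l₁ l₂, ∀ φ ∈ Icc 0 (2 * π), 0 ≤ d1 (d1 G) (l, φ) + d2 (d2 G) (l, φ)) :
    (∫ l in l₁..l₂, ∫ φ in 0..2 * π,
        (d1 (fun y => F (gp G y)) (l, φ) ^ 2 + d2 (fun y => F (gp G y)) (l, φ) ^ 2)) ≤
      (∫ l in l₁..l₂, ∫ φ in 0..2 * π, (d1 F (gp G (l, φ)) ^ 2 - d1 Ψ (gp G (l, φ)))) +
      ((∫ φ in 0..2 * π, (H (gp G (l₂, φ)) * d1 G (l₂, φ) + Ψ (gp G (l₂, φ)))) -
        ∫ φ in 0..2 * π, (H (gp G (l₁, φ)) * d1 G (l₁, φ) + Ψ (gp G (l₁, φ)))) := by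
  rw [← energy_rect hG hper hU hF hH hΨ hHg hΨg hl hx]
  have hpi : (0 : ℝ) ≤ 2 * π := by positivity
  have hGf : ContDiff ℝ 1 (fderiv ℝ G) := hG.fderiv_right (by norm_num)
  have hG1 : ContDiff ℝ 1 (d1 G) := hGf.clm_apply contDiff_const
  have hG2 : ContDiff ℝ 1 (d2 G) := hGf.clm_apply contDiff_const
  have hgp : ContDiff ℝ 2 (gp G) := contDiff_fst.prodMk hG
  have hV : IsOpen (gp G ⁻¹' U) := hU.preimage hgp.continuous
  have hRV : Icc l₁ l₂ ×ˢ Icc 0 (2 * π) ⊆ gp G ⁻¹' U := by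
    rintro ⟨l, φ⟩ ⟨h1, h2⟩
    exact hx l h1 φ h2
  have hFc : ContDiffOn ℝ 1 (fun y => F (gp G y)) (gp G ⁻¹' U) :=
    hF.comp (hgp.of_le (by norm_num)).contDiffOn fun x hx => hx
  have hHc : ContinuousOn (fun y => H (gp G y)) (Icc l₁ l₂ ×ˢ Icc 0 (2 * π)) :=
    (hH.continuousOn.comp hgp.continuous.continuousOn fun x hx => hx).mono hRV
  have hFf : ContinuousOn (fderiv ℝ (fun y => F (gp G y))) (gp G ⁻¹' U) :=
    hFc.continuousOn_fderiv_of_isOpen hV le_rfl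
  have hc1 : ContinuousOn (fun x => d1 (fun y => F (gp G y)) x ^ 2 +
      d2 (fun y => F (gp G y)) x ^ 2) (Icc l₁ l₂ ×ˢ Icc 0 (2 * π)) :=
    (((hFf.mono hRV).clm_apply continuousOn_const).pow 2).add
      (((hFf.mono hRV).clm_apply continuousOn_const).pow 2)
  have hGG1 : Continuous (d1 (d1 G)) :=
    (hG1.continuous_fderiv one_ne_zero).clm_apply continuous_const
  have hGG2 : Continuous (d2 (d2 G)) :=
    (hG2.continuous_fderiv one_ne_zero).clm_apply continuous_const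
  have hc2 : ContinuousOn (fun x => d1 (fun y => F (gp G y)) x ^ 2 +
      d2 (fun y => F (gp G y)) x ^ 2 + H (gp G x) * (d1 (d1 G) x + d2 (d2 G) x))
      (Icc l₁ l₂ ×ˢ Icc 0 (2 * π)) :=
    hc1.add (hHc.mul (hGG1.add hGG2).continuousOn)
  have hsec : ∀ l ∈ Icc l₁ l₂, ContinuousOn (fun φ : ℝ => ((l, φ) : ℝ × ℝ)) [[0, 2 * π]] :=
    fun l _ => by fun_prop
  have hmem : ∀ l ∈ Icc l₁ l₂, MapsTo (fun φ : ℝ => ((l, φ) : ℝ × ℝ)) [[0, 2 * π]]
      (Icc l₁ l₂ ×ˢ Icc 0 (2 * π)) := by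
    intro l hl' φ hφ
    rw [uIcc_of_le hpi] at hφ
    exact ⟨hl', hφ⟩
  refine intervalIntegral.integral_mono_on hl (intervalIntegrable_integral hl hpi hc1)
    (intervalIntegrable_integral hl hpi hc2) fun l hl' => ?_
  refine intervalIntegral.integral_mono_on hpi (hc1.comp (hsec l hl') (hmem l hl')).intervalIntegrable
    (hc2.comp (hsec l hl') (hmem l hl')).intervalIntegrable fun φ hφ => ?_
  exact le_add_of_nonneg_right (mul_nonneg (hpos l hl' φ hφ) (hsub l hl' φ hφ))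

end Pool.Agent.H23.EH
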