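import Mathlib
import Pool.Agent.H23.EH.E1

/-!
# EHP (MP_ff60c2_an), block A2 (form FF): the energy identity on a rectangle

`y` is `C²` and harmonic on an open set `W`, and `y ≤ e` near every point outside `W`.
`F, H, Ψ : ℝ × ℝ → ℝ` are `C¹` on the whole plane; for `t ≤ e`: `F (l, t) = F (l, e)`, `H (l, t) = 0`,
`Ψ (l, t) = 0`. Then `u = F (l, y)`, `H (l, y) y_l`, `H (l, y) y_φ`, `Ψ (l, y)` are
`C¹` on the whole plane and the energy identity holds.
-/

set_option autoImplicit false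

open MeasureTheory Set intervalIntegral Filter Topology
open scoped Real Interval

noncomputable section

namespace Pool.Agent.H23.EH

/-- the pointwise identity, at a point where `G` is `C²` -/
theorem energy_pointwise_at {G F H Ψ : ℝ × ℝ → ℝ} {x : ℝ × ℝ} (hG : ContDiffAt ℝ 2 G x)
    (hF : DifferentiableAt ℝ F (gp G x)) (hH : DifferentiableAt ℝ H (gp G x))
    (hΨ : DifferentiableAt ℝ Ψ (gp G x)) (hHg : d2 H (gp G x) = d2 F (gp G x) ^ 2)
    (hΨg : d2 Ψ (gp G x) = 2 * d1 F (gp G x) * d2 F (gp G x) - d1 H (gp G x)) :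
    d1 (fun y => F (gp G y)) x ^ 2 + d2 (fun y => F (gp G y)) x ^ 2 +
        H (gp G x) * (d1 (d1 G) x + d2 (d2 G) x) =
      (d1 F (gp G x) ^ 2 - d1 Ψ (gp G x)) +
        (d1 (fun y => H (gp G y) * d1 G y + Ψ (gp G y)) x +
          d2 (fun y => H (gp G y) * d2 G y) x) := by
  have hGd : DifferentiableAt ℝ G x := hG.differentiableAt (by norm_num)
  have hGf : ContDiffAt ℝ 1 (fderiv ℝ G) x := hG.fderiv_right (by norm_num)
  have hG1 : ContDiffAt ℝ 1 (d1 G) x := hGf.clm_apply contDiffAt_const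
  have hG2 : ContDiffAt ℝ 1 (d2 G) x := hGf.clm_apply contDiffAt_const
  have hG1d : DifferentiableAt ℝ (d1 G) x := hG1.differentiableAt one_ne_zero
  have hG2d : DifferentiableAt ℝ (d2 G) x := hG2.differentiableAt one_ne_zero
  have hHc : DifferentiableAt ℝ (fun y => H (gp G y)) x :=
    hH.comp x (hasFDerivAt_gp hGd).differentiableAt
  have hΨc : DifferentiableAt ℝ (fun y => Ψ (gp G y)) x :=
    hΨ.comp x (hasFDerivAt_gp hGd).differentiableAt
  have hm : DifferentiableAt ℝ (fun y => H (gp G y) * d1 G y) x := hHc.mul hG1d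
  rw [d1_comp_gp hGd hF, d2_comp_gp hGd hF, d1_add hm hΨc, d1_mul hHc hG1d,
    d2_mul hHc hG2d, d1_comp_gp hGd hH, d2_comp_gp hGd hH, d1_comp_gp hGd hΨ,
    hHg, hΨg]
  ring

/-- the data `y`: `C²` and harmonic on the open set `W`, `y ≤ e` near every point outside `W` -/
structure YD (y : ℝ × ℝ → ℝ) (W : Set (ℝ × ℝ)) (e : ℝ) : Prop where
  isOpen : IsOpen W
  smooth : ∀ x ∈ W, ContDiffAt ℝ 2 y x
  harm : ∀ x ∈ W, d1 (d1 y) x + d2 (d2 y) x = 0
  off : ∀ x, x ∉ W → ∀ᶠ z in 𝓝 x, y z ≤ e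

/-- the data `F, H, Ψ` with base `e` -/
structure FDe (F H Ψ : ℝ × ℝ → ℝ) (e : ℝ) : Prop where
  F1 : ContDiff ℝ 1 F
  H1 : ContDiff ℝ 1 H
  Ψ1 : ContDiff ℝ 1 Ψ
  Fe : ∀ l t, t ≤ e → F (l, t) = F (l, e)
  He : ∀ l t, t ≤ e → H (l, t) = 0
  Ψe : ∀ l t, t ≤ e → Ψ (l, t) = 0
  Hg : ∀ x : ℝ × ℝ, d2 H x = d2 F x ^ 2
  Ψg : ∀ x : ℝ × ℝ, d2 Ψ x = 2 * d1 F x * d2 F x - d1 H x

section

variable {F H Ψ y : ℝ × ℝ → ℝ} {W : Set (ℝ × ℝ)} {e : ℝ}

theorem YD.off_eq (hy : YD y W e) {K : ℝ × ℝ → ℝ} (hK : ∀ l t, t ≤ e → K (l, t) = K (l, e))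
    {x : ℝ × ℝ} (hx : x ∉ W) : (fun z => K (gp y z)) =ᶠ[𝓝 x] fun z => K (z.1, e) := by
  filter_upwards [hy.off x hx] with z hz
  exact hK _ _ hz

/-- `K (l, y)` is `C¹` on the whole plane -/
theorem YD.contDiff_comp (hy : YD y W e) {K : ℝ × ℝ → ℝ} (hK : ContDiff ℝ 1 K)
    (hKe : ∀ l t, t ≤ e → K (l, t) = K (l, e)) : ContDiff ℝ 1 (fun z => K (gp y z)) := by
  rw [contDiff_iff_contDiffAt]
  intro x
  by_cases hx : x ∈ W
  · have h2 : ContDiffAt ℝ 1 (gp y) x :=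
      contDiffAt_fst.prodMk ((hy.smooth x hx).of_le (by norm_num))
    exact hK.contDiffAt.comp x h2
  · have h1 : ContDiff ℝ 1 (fun z : ℝ × ℝ => K (z.1, e)) :=
      hK.comp (contDiff_fst.prodMk contDiff_const)
    exact h1.contDiffAt.congr_of_eventuallyEq (hy.off_eq hKe hx)

/-- `H (l, y) * A` is `C¹` on the whole plane if `A` is `C¹` on `W` -/
theorem YD.contDiff_mul (hy : YD y W e) {K : ℝ × ℝ → ℝ} (hK : ContDiff ℝ 1 K)
    (hKe : ∀ l t, t ≤ e → K (l, t) = 0) {A : ℝ × ℝ → ℝ}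
    (hA : ∀ x ∈ W, ContDiffAt ℝ 1 A x) : ContDiff ℝ 1 (fun z => K (gp y z) * A z) := by
  have hK' : ∀ l t, t ≤ e → K (l, t) = K (l, e) := fun l t ht => by
    rw [hKe l t ht, hKe l e le_rfl]
  rw [contDiff_iff_contDiffAt]
  intro x
  by_cases hx : x ∈ W
  · exact (hy.contDiff_comp hK hK').contDiffAt.mul (hA x hx)
  · have h1 : (fun z => K (gp y z) * A z) =ᶠ[𝓝 x] fun _ => 0 := by
      filter_upwards [hy.off_eq hK' hx] with z hz
      rw [hz, hKe _ _ le_rfl, zero_mul]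
    exact contDiffAt_const.congr_of_eventuallyEq h1

theorem YD.contDiffAt_d1 (hy : YD y W e) {x : ℝ × ℝ} (hx : x ∈ W) : ContDiffAt ℝ 1 (d1 y) x := by
  have hGf : ContDiffAt ℝ 1 (fderiv ℝ y) x := (hy.smooth x hx).fderiv_right (by norm_num)
  exact hGf.clm_apply contDiffAt_const

theorem YD.contDiffAt_d2 (hy : YD y W e) {x : ℝ × ℝ} (hx : x ∈ W) : ContDiffAt ℝ 1 (d2 y) x := by
  have hGf : ContDiffAt ℝ 1 (fderiv ℝ y) x := (hy.smooth x hx).fderiv_right (by norm_num)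
  exact hGf.clm_apply contDiffAt_const

theorem FDe.He' (h : FDe F H Ψ e) (l t : ℝ) (ht : t ≤ e) : H (l, t) = H (l, e) := by
  rw [h.He l t ht, h.He l e le_rfl]

theorem FDe.Ψe' (h : FDe F H Ψ e) (l t : ℝ) (ht : t ≤ e) : Ψ (l, t) = Ψ (l, e) := by
  rw [h.Ψe l t ht, h.Ψe l e le_rfl]

/-- the function `u = F (l, y)` is `C¹` on the whole plane -/
theorem contDiff_u (hy : YD y W e) (h : FDe F H Ψ e) : ContDiff ℝ 1 (fun z => F (gp y z)) :=
  hy.contDiff_comp h.F1 h.Fe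

/-- `K_l (l, y)` is continuous, for `K` of class `C¹` -/
theorem YD.continuous_comp_d1 (hy : YD y W e) {K : ℝ × ℝ → ℝ} (hK : ContDiff ℝ 1 K)
    (hKe : ∀ l t, t ≤ e → K (l, t) = K (l, e)) : Continuous fun z => d1 K (gp y z) := by
  have hd1 : Continuous (d1 K) := (hK.continuous_fderiv one_ne_zero).clm_apply continuous_const
  rw [continuous_iff_continuousAt]
  intro x
  by_cases hx : x ∈ W
  · have h2 : ContinuousAt (gp y) x :=
      continuousAt_fst.prodMk (hy.smooth x hx).continuousAt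
    exact hd1.continuousAt.comp h2
  · have key : ∀ l t, t ≤ e → d1 K (l, t) = d1 K (l, e) := by
      intro l t ht
      have g1 : HasFDerivAt (fun s : ℝ => ((s, t) : ℝ × ℝ)) (ContinuousLinearMap.inl ℝ ℝ ℝ) l :=
        hasFDerivAt_prodMk_left l t
      have g2 : HasFDerivAt (fun s : ℝ => ((s, e) : ℝ × ℝ)) (ContinuousLinearMap.inl ℝ ℝ ℝ) l :=
        hasFDerivAt_prodMk_left l e
      have k1 : HasFDerivAt (fun s : ℝ => K (s, t)) _ l :=
        (hK.differentiable one_ne_zero (l, t)).hasFDerivAt.comp l g1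
      have k2 : HasFDerivAt (fun s : ℝ => K (s, e)) _ l :=
        (hK.differentiable one_ne_zero (l, e)).hasFDerivAt.comp l g2
      have k3 : (fun s : ℝ => K (s, t)) = fun s : ℝ => K (s, e) := funext fun s => hKe s t ht
      rw [k3] at k1
      have k4 := congrArg (fun A => A 1) (k1.unique k2)
      simpa [d1] using k4
    have h3 : (fun z => d1 K (gp y z)) =ᶠ[𝓝 x] fun z => d1 K (z.1, e) := by
      filter_upwards [hy.off x hx] with z hz
      exact key _ _ hz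
    have h4 : Continuous fun z : ℝ × ℝ => d1 K (z.1, e) :=
      hd1.comp (continuous_fst.prodMk continuous_const)
    exact h4.continuousAt.congr h3.symm

theorem hasFDerivAt_base {K : ℝ × ℝ → ℝ} (hK : Differentiable ℝ K) (e : ℝ) (x : ℝ × ℝ) :
    HasFDerivAt (fun z : ℝ × ℝ => K (z.1, e)) ((fderiv ℝ K (x.1, e)).comp
      ((ContinuousLinearMap.fst ℝ ℝ ℝ).prod (0 : ℝ × ℝ →L[ℝ] ℝ))) x := by
  have h1 : HasFDerivAt (fun z : ℝ × ℝ => ((z.1, e) : ℝ × ℝ))
      ((ContinuousLinearMap.fst ℝ ℝ ℝ).prod (0 : ℝ × ℝ →L[ℝ] ℝ)) x :=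
    hasFDerivAt_fst.prodMk (hasFDerivAt_const _ _)
  exact (hK (x.1, e)).hasFDerivAt.comp x h1

/-- the pointwise energy identity, everywhere on the plane -/
theorem energyF_pointwise (hy : YD y W e) (h : FDe F H Ψ e) (x : ℝ × ℝ) :
    d1 (fun z => F (gp y z)) x ^ 2 + d2 (fun z => F (gp y z)) x ^ 2 =
      (d1 F (gp y x) ^ 2 - d1 Ψ (gp y x)) +
        (d1 (fun z => H (gp y z) * d1 y z + Ψ (gp y z)) x +
          d2 (fun z => H (gp y z) * d2 y z) x) := by
  by_cases hx : x ∈ W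
  · have key := energy_pointwise_at (G := y) (F := F) (H := H) (Ψ := Ψ) (x := x)
      (hy.smooth x hx) (h.F1.differentiable one_ne_zero _) (h.H1.differentiable one_ne_zero _)
      (h.Ψ1.differentiable one_ne_zero _) (h.Hg _) (h.Ψg _)
    rw [hy.harm x hx, mul_zero, add_zero] at key
    exact key
  · have hFd := h.F1.differentiable one_ne_zero
    have hye : y x ≤ e := (hy.off x hx).self_of_nhds
    have e1 : d1 (fun z => F (gp y z)) x = d1 F (x.1, e) := by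
      unfold d1
      rw [((hasFDerivAt_base hFd e x).congr_of_eventuallyEq (hy.off_eq h.Fe hx)).fderiv]
      simp
    have e2 : d2 (fun z => F (gp y z)) x = 0 := by
      unfold d2
      rw [((hasFDerivAt_base hFd e x).congr_of_eventuallyEq (hy.off_eq h.Fe hx)).fderiv]
      have h3 : (((0 : ℝ), (0 : ℝ)) : ℝ × ℝ) = 0 := rfl
      simp [h3]
    have e3 : d1 F (gp y x) = d1 F (x.1, e) := by
      have g1 : HasFDerivAt (fun s : ℝ => ((s, y x) : ℝ × ℝ)) (ContinuousLinearMap.inl ℝ ℝ ℝ)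
          x.1 := hasFDerivAt_prodMk_left x.1 (y x)
      have g2 : HasFDerivAt (fun s : ℝ => ((s, e) : ℝ × ℝ)) (ContinuousLinearMap.inl ℝ ℝ ℝ)
          x.1 := hasFDerivAt_prodMk_left x.1 e
      have k1 : HasFDerivAt (fun s : ℝ => F (s, y x)) _ x.1 :=
        (hFd (x.1, y x)).hasFDerivAt.comp x.1 g1
      have k2 : HasFDerivAt (fun s : ℝ => F (s, e)) _ x.1 := (hFd (x.1, e)).hasFDerivAt.comp x.1 g2
      have k3 : (fun s : ℝ => F (s, y x)) = fun s : ℝ => F (s, e) :=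
        funext fun s => h.Fe s (y x) hye
      rw [k3] at k1
      have k4 := congrArg (fun A => A 1) (k1.unique k2)
      simpa [d1, gp] using k4
    have e4 : d1 Ψ (gp y x) = 0 := by
      have g1 : HasFDerivAt (fun s : ℝ => ((s, y x) : ℝ × ℝ)) (ContinuousLinearMap.inl ℝ ℝ ℝ)
          x.1 := hasFDerivAt_prodMk_left x.1 (y x)
      have k1 : HasFDerivAt (fun s : ℝ => Ψ (s, y x)) _ x.1 :=
        (h.Ψ1.differentiable one_ne_zero (x.1, y x)).hasFDerivAt.comp x.1 g1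
      have k3 : (fun s : ℝ => Ψ (s, y x)) = fun _ => 0 :=
        funext fun s => h.Ψe s (y x) hye
      rw [k3] at k1
      have k4 := congrArg (fun A => A 1) (k1.unique (hasFDerivAt_const (0:ℝ) x.1))
      simpa [d1, gp] using k4
    have e5 : d1 (fun z => H (gp y z) * d1 y z + Ψ (gp y z)) x = 0 := by
      have h1 : (fun z => H (gp y z) * d1 y z + Ψ (gp y z)) =ᶠ[𝓝 x] fun _ => 0 := by
        filter_upwards [hy.off x hx] with z hz
        change H (z.1, y z) * d1 y z + Ψ (z.1, y z) = 0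
        rw [h.He _ _ hz, h.Ψe _ _ hz]
        ring
      change fderiv ℝ (fun z => H (gp y z) * d1 y z + Ψ (gp y z)) x (1, 0) = 0
      rw [h1.fderiv_eq]
      simp
    have e6 : d2 (fun z => H (gp y z) * d2 y z) x = 0 := by
      have h1 : (fun z => H (gp y z) * d2 y z) =ᶠ[𝓝 x] fun _ => 0 := by
        filter_upwards [hy.off x hx] with z hz
        change H (z.1, y z) * d2 y z = 0
        rw [h.He _ _ hz]
        ring
      change fderiv ℝ (fun z => H (gp y z) * d2 y z) x (0, 1) = 0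
      rw [h1.fderiv_eq]
      simp
    rw [e1, e2, e3, e4, e5, e6]
    ring

theorem contDiff_flux1 (hy : YD y W e) (h : FDe F H Ψ e) :
    ContDiff ℝ 1 (fun z => H (gp y z) * d1 y z + Ψ (gp y z)) :=
  (hy.contDiff_mul h.H1 h.He fun _ hx => hy.contDiffAt_d1 hx).add
    (hy.contDiff_comp h.Ψ1 h.Ψe')

theorem contDiff_flux2 (hy : YD y W e) (h : FDe F H Ψ e) :
    ContDiff ℝ 1 (fun z => H (gp y z) * d2 y z) :=
  hy.contDiff_mul h.H1 h.He fun _ hx => hy.contDiffAt_d2 hx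

theorem continuous_q (hy : YD y W e) (h : FDe F H Ψ e) :
    Continuous fun x => d1 F (gp y x) ^ 2 - d1 Ψ (gp y x) :=
  ((hy.continuous_comp_d1 h.F1 h.Fe).pow 2).sub (hy.continuous_comp_d1 h.Ψ1 h.Ψe')

/-- **The energy identity, form FF**, on the rectangle `[l₁, l₂] × [a, b]`, with the boundary terms
in `φ`. -/
theorem energyF_rect' (hy : YD y W e) (h : FDe F H Ψ e) (l₁ l₂ a b : ℝ) :
    (∫ l in l₁..l₂, ∫ φ in a..b,
        (d1 (fun z => F (gp y z)) (l, φ) ^ 2 + d2 (fun z => F (gp y z)) (l, φ) ^ 2)) =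
      (∫ l in l₁..l₂, ∫ φ in a..b, (d1 F (gp y (l, φ)) ^ 2 - d1 Ψ (gp y (l, φ)))) +
      ((∫ φ in a..b, (H (gp y (l₂, φ)) * d1 y (l₂, φ) + Ψ (gp y (l₂, φ)))) -
        ∫ φ in a..b, (H (gp y (l₁, φ)) * d1 y (l₁, φ) + Ψ (gp y (l₁, φ)))) +
      ((∫ l in l₁..l₂, H (gp y (l, b)) * d2 y (l, b)) -
        ∫ l in l₁..l₂, H (gp y (l, a)) * d2 y (l, a)) := by
  set f : ℝ × ℝ → ℝ := fun z => H (gp y z) * d1 y z + Ψ (gp y z) with hfdef
  set g : ℝ × ℝ → ℝ := fun z => H (gp y z) * d2 y z with hgdef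
  have hf : ContDiff ℝ 1 f := contDiff_flux1 hy h
  have hg : ContDiff ℝ 1 g := contDiff_flux2 hy h
  have hcf : Continuous (d1 f) := (hf.continuous_fderiv one_ne_zero).clm_apply continuous_const
  have hcg : Continuous (d2 g) := (hg.continuous_fderiv one_ne_zero).clm_apply continuous_const
  have hcfg : Continuous fun x => d1 f x + d2 g x := hcf.add hcg
  have hdiv := integral2_divergence_prod_of_hasFDerivAt_off_countable f g (fderiv ℝ f)
    (fderiv ℝ g) l₁ a l₂ b ∅ countable_empty hf.continuous.continuousOn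
    hg.continuous.continuousOn
    (fun x _ => (hf.differentiable one_ne_zero x).hasFDerivAt)
    (fun x _ => (hg.differentiable one_ne_zero x).hasFDerivAt)
    (hcfg.continuousOn.integrableOn_compact (isCompact_uIcc.prod isCompact_uIcc))
  have hq := continuous_q hy h
  have hkey : (∫ l in l₁..l₂, ∫ φ in a..b,
      (d1 (fun z => F (gp y z)) (l, φ) ^ 2 + d2 (fun z => F (gp y z)) (l, φ) ^ 2)) =
      ∫ l in l₁..l₂, ((∫ φ in a..b, (d1 F (gp y (l, φ)) ^ 2 - d1 Ψ (gp y (l, φ)))) +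
        ∫ φ in a..b, (d1 f (l, φ) + d2 g (l, φ))) := by
    refine intervalIntegral.integral_congr fun l _ => ?_
    have hc : Continuous (fun φ : ℝ => ((l, φ) : ℝ × ℝ)) := by fun_prop
    have i1 : IntervalIntegrable (fun φ => d1 F (gp y (l, φ)) ^ 2 - d1 Ψ (gp y (l, φ))) volume
        a b := (hq.comp hc).intervalIntegrable _ _
    have i2 : IntervalIntegrable (fun φ => d1 f (l, φ) + d2 g (l, φ)) volume a b :=
      (hcfg.comp hc).intervalIntegrable _ _
    change (∫ φ in a..b, (d1 (fun z => F (gp y z)) (l, φ) ^ 2 +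
      d2 (fun z => F (gp y z)) (l, φ) ^ 2)) = _
    rw [← intervalIntegral.integral_add i1 i2]
    exact intervalIntegral.integral_congr fun φ _ => energyF_pointwise hy h (l, φ)
  have hi1 : Continuous fun l => ∫ φ in a..b, (d1 F (gp y (l, φ)) ^ 2 - d1 Ψ (gp y (l, φ))) :=
    intervalIntegral.continuous_parametric_intervalIntegral_of_continuous' hq _ _
  have hi2 : Continuous fun l => ∫ φ in a..b, (d1 f (l, φ) + d2 g (l, φ)) :=
    intervalIntegral.continuous_parametric_intervalIntegral_of_continuous' hcfg _ _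
  rw [hkey, intervalIntegral.integral_add (hi1.intervalIntegrable _ _)
    (hi2.intervalIntegrable _ _)]
  have hdiv' : (∫ l in l₁..l₂, ∫ φ in a..b, (d1 f (l, φ) + d2 g (l, φ))) = _ := hdiv
  rw [hdiv']
  ring

theorem d2_periodic (hper : ∀ l φ, y (l, φ + 2 * π) = y (l, φ)) (l φ : ℝ) :
    d2 y (l, φ + 2 * π) = d2 y (l, φ) := by
  have h0 : ∀ z : ℝ × ℝ, y (z + (0, 2 * π)) = y z := by
    rintro ⟨a, b⟩
    have := hper a b
    simpa using this
  unfold d2
  have h2 : (fun z : ℝ × ℝ => y (z + (0, 2 * π))) = y := funext h0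
  have h3 : fderiv ℝ (fun z : ℝ × ℝ => y (z + (0, 2 * π))) (l, φ) =
      fderiv ℝ y ((l, φ) + (0, 2 * π)) := fderiv_comp_add_right _
  rw [h2] at h3
  rw [h3]
  simp

/-- **The energy identity, form FF**, on the rectangle `[l₁, l₂] × [0, 2π]`, `y` periodic. -/
theorem energyF_rect (hy : YD y W e) (h : FDe F H Ψ e)
    (hper : ∀ l φ, y (l, φ + 2 * π) = y (l, φ)) (l₁ l₂ : ℝ) :
    (∫ l in l₁..l₂, ∫ φ in 0..2 * π,
        (d1 (fun z => F (gp y z)) (l, φ) ^ 2 + d2 (fun z => F (gp y z)) (l, φ) ^ 2)) =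
      (∫ l in l₁..l₂, ∫ φ in 0..2 * π, (d1 F (gp y (l, φ)) ^ 2 - d1 Ψ (gp y (l, φ)))) +
      ((∫ φ in 0..2 * π, (H (gp y (l₂, φ)) * d1 y (l₂, φ) + Ψ (gp y (l₂, φ)))) -
        ∫ φ in 0..2 * π, (H (gp y (l₁, φ)) * d1 y (l₁, φ) + Ψ (gp y (l₁, φ)))) := by
  rw [energyF_rect' hy h l₁ l₂ 0 (2 * π)]
  have hb : (∫ l in l₁..l₂, H (gp y (l, 2 * π)) * d2 y (l, 2 * π)) =
      ∫ l in l₁..l₂, H (gp y (l, 0)) * d2 y (l, 0) := by
    refine intervalIntegral.integral_congr fun l _ => ?_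
    have h1 := d2_periodic hper l 0
    have h2 := hper l 0
    rw [zero_add] at h1 h2
    change H (l, y (l, 2 * π)) * d2 y (l, 2 * π) = H (l, y (l, 0)) * d2 y (l, 0)
    rw [h1, h2]
  rw [hb, sub_self, add_zero]

end

end Pool.Agent.H23.EH
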