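import Pool.Agent.H23.EH.YX
import Pool.Agent.H24.EH.Defs

/-!
# EHP (S06849), block `yQ_data` of `Pool.Agent.H24.EH.Energy`
-/

set_option autoImplicit false

open MeasureTheory Set Filter Topology
open scoped Real

noncomputable section

namespace Pool.Agent.H23.EH

open Pool.Agent.H24.EH (YData yQ gQ ex)

theorem ex_eq (x : ℝ × ℝ) : ex x = Complex.exp (ew x) := rfl

/-- the polynomial `∏ (z - a j)` -/
def fa {n : ℕ} (a : Fin n → ℂ) (z : ℂ) : ℂ := ∏ j, (z - a j)

theorem differentiable_fa {n : ℕ} (a : Fin n → ℂ) : Differentiable ℂ (fa a) := by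
  unfold fa
  fun_prop

theorem yQ_eq {n : ℕ} (a : Fin n → ℂ) (x : ℝ × ℝ) : yQ a x = max 0 (yf (1 / n) (fa a) x) := by
  unfold yQ gQ yf fa
  rw [ex_eq, Real.posLog_apply, mul_max_of_nonneg _ _ (by positivity : (0:ℝ) ≤ 1 / (n : ℝ)), mul_zero]

theorem contDiffAt_yf {c : ℝ} {f : ℂ → ℂ} (hf : Differentiable ℂ f) {x : ℝ × ℝ}
    (hx : f (Complex.exp (ew x)) ≠ 0) : ContDiffAt ℝ 3 (yf c f) x := by
  have h1 : ContDiff ℝ 3 fun z => f (Complex.exp (ew z)) := by
    have h2 : ContDiff ℝ 3 f := (hf.contDiff : ContDiff ℂ 3 f).restrict_scalars ℝ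
    have h3 : ContDiff ℝ 3 Complex.exp :=
      (Complex.contDiff_exp : ContDiff ℂ 3 Complex.exp).restrict_scalars ℝ
    exact h2.comp (h3.comp contDiff_ew)
  exact contDiffAt_const.mul ((h1.contDiffAt.norm ℝ hx).log (norm_ne_zero_iff.2 hx))

theorem yQ_pos {n : ℕ} (a : Fin n → ℂ) {x : ℝ × ℝ} (hx : 0 < yQ a x) :
    fa a (Complex.exp (ew x)) ≠ 0 ∧ yQ a =ᶠ[𝓝 x] yf (1 / n) (fa a) := by
  rw [yQ_eq] at hx
  have h1 : 0 < yf (1 / n) (fa a) x := by
    rcases lt_max_iff.1 hx with h | h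
    · exact absurd h (lt_irrefl 0)
    · exact h
  have h2 : fa a (Complex.exp (ew x)) ≠ 0 := by
    intro h0
    unfold yf at h1
    rw [h0, norm_zero, Real.log_zero, mul_zero] at h1
    exact lt_irrefl 0 h1
  refine ⟨h2, ?_⟩
  have h3 : ContinuousAt (yf (1 / n) (fa a)) x :=
    (contDiffAt_yf (differentiable_fa a) h2).continuousAt
  filter_upwards [h3.eventually (lt_mem_nhds h1)] with z hz
  rw [yQ_eq, max_eq_right hz.le]

/-- **block `yQ_data`** -/
theorem yQ_data {n : ℕ} (hn : 0 < n) (a : Fin n → ℂ) : YData (yQ a) := by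
  have hc : Continuous fun x => fa a (Complex.exp (ew x)) :=
    (differentiable_fa a).continuous.comp
      (Complex.continuous_exp.comp (contDiff_ew (n := 0)).continuous)
  refine ⟨?_, ?_, ?_, ?_, ?_⟩
  · -- continuity
    rw [continuous_iff_continuousAt]
    intro x
    by_cases hx : fa a (Complex.exp (ew x)) = 0
    · have h1 : ∀ᶠ z in 𝓝 x, ‖fa a (Complex.exp (ew z))‖ < 1 := by
        refine hc.norm.continuousAt.eventually_lt continuousAt_const ?_
        rw [hx, norm_zero]
        exact one_pos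
      have h2 : yQ a =ᶠ[𝓝 x] fun _ => 0 := by
        filter_upwards [h1] with z hz
        rw [yQ_eq]
        refine max_eq_left ?_
        unfold yf
        have h3 : Real.log ‖fa a (Complex.exp (ew z))‖ ≤ 0 :=
          Real.log_nonpos (norm_nonneg _) hz.le
        have h4 : (0:ℝ) ≤ 1 / (n : ℝ) := by positivity
        nlinarith [mul_nonneg h4 (neg_nonneg.2 h3)]
      exact continuousAt_const.congr h2.symm
    · have h1 : ContinuousAt (yf (1 / n) (fa a)) x :=
        (contDiffAt_yf (differentiable_fa a) hx).continuousAt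
      have h2 : yQ a = fun z => max 0 (yf (1 / n) (fa a) z) := funext fun z => yQ_eq a z
      rw [h2]
      exact continuousAt_const.max h1
  · intro x
    rw [yQ_eq]
    exact le_max_left _ _
  · intro l φ
    rw [yQ_eq, yQ_eq, yf_periodic]
  · intro x hx
    obtain ⟨h1, h2⟩ := yQ_pos a hx
    exact (contDiffAt_yf (differentiable_fa a) h1).congr_of_eventuallyEq h2
  · intro x hx
    obtain ⟨h1, h2⟩ := yQ_pos a hx
    have h3 : d1 (yQ a) =ᶠ[𝓝 x] d1 (yf (1 / n) (fa a)) := by
      filter_upwards [h2.eventually_nhds] with z hz using d1_congr hz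
    have h4 : d2 (yQ a) =ᶠ[𝓝 x] d2 (yf (1 / n) (fa a)) := by
      filter_upwards [h2.eventually_nhds] with z hz using d2_congr hz
    rw [d1_congr h3, d2_congr h4]
    have h5 : (0:ℝ) ≤ 1 / (n : ℝ) := by positivity
    exact (yf_YD h5 (differentiable_fa a) le_rfl).harm x h1

end Pool.Agent.H23.EH
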