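import Mathlib
import Pool.Agent.H23.EH.E1F

/-!
# EHP (MP_ff60c2_an), block A2: the polynomial side in logarithmic coordinates

`ew (l, φ) = l + i φ`. For a holomorphic `f`, the function `y (l, φ) = c log ‖f (exp (l + i φ))‖` (`c ≥ 0`)
is `C²` and harmonic where `f ≠ 0`, and `≤ e` near the zeros of `f`: an instance of `YD` for every `e > 0`.
Truncations `K ∘ y` (`K` of class `C²`, constant on `(-∞, e]`) are `C²` on the whole plane.
-/

set_option autoImplicit false

open MeasureTheory Set intervalIntegral Filter Topology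
open scoped Real Interval

noncomputable section

namespace Pool.Agent.H23.EH

theorem d1_congr {f g : ℝ × ℝ → ℝ} {x : ℝ × ℝ} (h : f =ᶠ[𝓝 x] g) : d1 f x = d1 g x := by
  unfold d1
  rw [h.fderiv_eq]

theorem d2_congr {f g : ℝ × ℝ → ℝ} {x : ℝ × ℝ} (h : f =ᶠ[𝓝 x] g) : d2 f x = d2 g x := by
  unfold d2
  rw [h.fderiv_eq]

/-- `l + i φ` -/
def ew (x : ℝ × ℝ) : ℂ := x.1 + x.2 * Complex.I

theorem ew_eq : ew = Complex.equivRealProdCLM.symm := by
  funext x
  rw [Complex.equivRealProdCLM_symm_apply]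
  rfl

theorem contDiff_ew {n : WithTop ℕ∞} : ContDiff ℝ n ew := by
  rw [ew_eq]
  exact Complex.equivRealProdCLM.symm.contDiff

theorem hasFDerivAt_ew (x : ℝ × ℝ) :
    HasFDerivAt ew (Complex.equivRealProdCLM.symm : ℝ × ℝ →L[ℝ] ℂ) x := by
  have h : ew = ((Complex.equivRealProdCLM.symm : ℝ × ℝ →L[ℝ] ℂ) : ℝ × ℝ → ℂ) := by
    rw [ew_eq]
    rfl
  rw [h]
  exact ContinuousLinearMap.hasFDerivAt _

theorem hasFDerivAt_re_ew {F : ℂ → ℂ} {F' : ℂ} {x : ℝ × ℝ} (h : HasDerivAt F F' (ew x)) :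
    HasFDerivAt (fun z => (F (ew z)).re)
      (Complex.reCLM.comp ((((ContinuousLinearMap.toSpanSingleton ℂ F').restrictScalars ℝ) : ℂ →L[ℝ] ℂ).comp
        (Complex.equivRealProdCLM.symm : ℝ × ℝ →L[ℝ] ℂ))) x := by
  have h1 : HasFDerivAt F (((ContinuousLinearMap.toSpanSingleton ℂ F').restrictScalars ℝ) : ℂ →L[ℝ] ℂ)
      (ew x) := h.hasFDerivAt.restrictScalars ℝ
  exact Complex.reCLM.hasFDerivAt.comp x (h1.comp x (hasFDerivAt_ew x))

theorem d1_re_ew {F : ℂ → ℂ} {F' : ℂ} {x : ℝ × ℝ} (h : HasDerivAt F F' (ew x)) :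
    d1 (fun z => (F (ew z)).re) x = F'.re := by
  unfold d1
  rw [(hasFDerivAt_re_ew h).fderiv]
  simp [Complex.equivRealProdCLM_symm_apply]

theorem d2_re_ew {F : ℂ → ℂ} {F' : ℂ} {x : ℝ × ℝ} (h : HasDerivAt F F' (ew x)) :
    d2 (fun z => (F (ew z)).re) x = -F'.im := by
  unfold d2
  rw [(hasFDerivAt_re_ew h).fderiv]
  simp [Complex.equivRealProdCLM_symm_apply]

/-- a function whose gradient is given by a holomorphic function is harmonic -/
theorem harm_of_holo {y : ℝ × ℝ → ℝ} {W : Set (ℝ × ℝ)} (hW : IsOpen W) {h : ℂ → ℂ}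
    (hh : ∀ x ∈ W, DifferentiableAt ℂ h (ew x)) (h1 : ∀ x ∈ W, d1 y x = (h (ew x)).re)
    (h2 : ∀ x ∈ W, d2 y x = -(h (ew x)).im) (x : ℝ × ℝ) (hx : x ∈ W) :
    d1 (d1 y) x + d2 (d2 y) x = 0 := by
  have hd := (hh x hx).hasDerivAt
  have e1 : d1 y =ᶠ[𝓝 x] fun z => (h (ew z)).re := by
    filter_upwards [hW.mem_nhds hx] with z hz using h1 z hz
  have e2 : d2 y =ᶠ[𝓝 x] fun z => ((fun w => h w * Complex.I) (ew z)).re := by
    filter_upwards [hW.mem_nhds hx] with z hz
    rw [h2 z hz]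
    simp
  have a1 : d1 (d1 y) x = (deriv h (ew x)).re := by
    rw [d1_congr e1]
    exact d1_re_ew hd
  have a2 : d2 (d2 y) x = -(deriv h (ew x) * Complex.I).im := by
    rw [d2_congr e2]
    exact d2_re_ew (hd.mul_const Complex.I)
  rw [a1, a2]
  simp

/-- `log ‖g‖` near a point where `g ≠ 0`: real part of a holomorphic function with derivative `g'/g` -/
theorem hasFDerivAt_log_norm_ew {g : ℂ → ℂ} {g' : ℂ} {x : ℝ × ℝ} (h : HasDerivAt g g' (ew x))
    (h0 : g (ew x) ≠ 0) :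
    HasFDerivAt (fun z => Real.log ‖g (ew z)‖)
      (Complex.reCLM.comp ((((ContinuousLinearMap.toSpanSingleton ℂ (g' / g (ew x))).restrictScalars ℝ) :
        ℂ →L[ℝ] ℂ).comp (Complex.equivRealProdCLM.symm : ℝ × ℝ →L[ℝ] ℂ))) x := by
  have hq : HasDerivAt (fun w => g w / g (ew x)) (g' / g (ew x)) (ew x) := h.div_const _
  have h1 : g (ew x) / g (ew x) = 1 := div_self h0
  have hs : g (ew x) / g (ew x) ∈ Complex.slitPlane := by
    rw [h1]
    exact Complex.one_mem_slitPlane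
  have hl : HasDerivAt (fun w => Complex.log (g w / g (ew x))) (g' / g (ew x)) (ew x) := by
    have := hq.clog hs
    rw [h1, div_one] at this
    exact this
  have hr := hasFDerivAt_re_ew hl
  have hr2 := hr.add_const (Real.log ‖g (ew x)‖)
  refine hr2.congr_of_eventuallyEq ?_
  have hcont : ContinuousAt (fun z => g (ew z)) x :=
    h.continuousAt.comp (contDiff_ew (n := 0)).continuous.continuousAt
  filter_upwards [hcont.eventually_ne h0] with z hz
  rw [Complex.log_re, norm_div, Real.log_div (norm_ne_zero_iff.2 hz) (norm_ne_zero_iff.2 h0)]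
  ring

/-- `y (l, φ) = c log ‖f (exp (l + i φ))‖` -/
def yf (c : ℝ) (f : ℂ → ℂ) (x : ℝ × ℝ) : ℝ := c * Real.log ‖f (Complex.exp (ew x))‖

theorem d1_yf {c : ℝ} {f : ℂ → ℂ} (hf : Differentiable ℂ f) {x : ℝ × ℝ}
    (hx : f (Complex.exp (ew x)) ≠ 0) :
    d1 (yf c f) x = c * (deriv f (Complex.exp (ew x)) * Complex.exp (ew x) /
      f (Complex.exp (ew x))).re := by
  have hg : HasDerivAt (fun w => f (Complex.exp w)) (deriv f (Complex.exp (ew x)) *
      Complex.exp (ew x)) (ew x) :=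
    (hf _).hasDerivAt.comp (ew x) (Complex.hasDerivAt_exp _)
  have h1 := (hasFDerivAt_log_norm_ew hg hx).const_mul c
  unfold d1 yf
  rw [h1.fderiv]
  simp [Complex.equivRealProdCLM_symm_apply]

theorem d2_yf {c : ℝ} {f : ℂ → ℂ} (hf : Differentiable ℂ f) {x : ℝ × ℝ}
    (hx : f (Complex.exp (ew x)) ≠ 0) :
    d2 (yf c f) x = -(c * (deriv f (Complex.exp (ew x)) * Complex.exp (ew x) /
      f (Complex.exp (ew x))).im) := by
  have hg : HasDerivAt (fun w => f (Complex.exp w)) (deriv f (Complex.exp (ew x)) *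
      Complex.exp (ew x)) (ew x) :=
    (hf _).hasDerivAt.comp (ew x) (Complex.hasDerivAt_exp _)
  have h1 := (hasFDerivAt_log_norm_ew hg hx).const_mul c
  unfold d2 yf
  rw [h1.fderiv]
  simp [Complex.equivRealProdCLM_symm_apply]

theorem yf_periodic (c : ℝ) (f : ℂ → ℂ) (l φ : ℝ) : yf c f (l, φ + 2 * π) = yf c f (l, φ) := by
  have h : Complex.exp (ew (l, φ + 2 * π)) = Complex.exp (ew (l, φ)) := by
    have : ew (l, φ + 2 * π) = ew (l, φ) + 2 * π * Complex.I := by
      unfold ew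
      push_cast
      ring
    rw [this, Complex.exp_add, Complex.exp_two_pi_mul_I, mul_one]
  unfold yf
  rw [h]

/-- the polynomial (or entire) side is an instance of `YD`, for every `e > 0` -/
theorem yf_YD {c : ℝ} (hc : 0 ≤ c) {f : ℂ → ℂ} (hf : Differentiable ℂ f) {e : ℝ} (he : 0 ≤ e) :
    YD (yf c f) {x | f (Complex.exp (ew x)) ≠ 0} e := by
  have hcont : Continuous fun x => f (Complex.exp (ew x)) :=
    hf.continuous.comp (Complex.continuous_exp.comp (contDiff_ew (n := 0)).continuous)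
  have hW : IsOpen {x | f (Complex.exp (ew x)) ≠ 0} := isOpen_ne_fun hcont continuous_const
  refine ⟨hW, ?_, ?_, ?_⟩
  · intro x hx
    have h1 : ContDiff ℝ 2 fun z => f (Complex.exp (ew z)) := by
      have h2 : ContDiff ℝ 2 f := (hf.contDiff : ContDiff ℂ 2 f).restrict_scalars ℝ
      have h3 : ContDiff ℝ 2 Complex.exp := (Complex.contDiff_exp : ContDiff ℂ 2 Complex.exp).restrict_scalars ℝ
      exact h2.comp (h3.comp contDiff_ew)
    exact contDiffAt_const.mul ((h1.contDiffAt.norm ℝ hx).log (norm_ne_zero_iff.2 hx))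
  · intro x hx
    refine harm_of_holo hW (h := fun w => c * (deriv f (Complex.exp w) * Complex.exp w /
      f (Complex.exp w))) ?_ ?_ ?_ x hx
    · intro z hz
      have hd : Differentiable ℂ (deriv f) := by
        have := (hf.contDiff (n := 2)).differentiable_deriv_two
        exact this
      have h1 : DifferentiableAt ℂ (fun w => deriv f (Complex.exp w)) (ew z) :=
        (hd _).comp (ew z) Complex.differentiableAt_exp
      have h2 : DifferentiableAt ℂ (fun w => f (Complex.exp w)) (ew z) :=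
        (hf _).comp (ew z) Complex.differentiableAt_exp
      exact ((h1.mul Complex.differentiableAt_exp).div h2 hz).const_mul _
    · intro z hz
      rw [d1_yf hf hz]
      simp
    · intro z hz
      rw [d2_yf hf hz]
      simp
  · intro x hx
    have hx0 : f (Complex.exp (ew x)) = 0 := by
      by_contra h
      exact hx h
    have h1 : ∀ᶠ z in 𝓝 x, ‖f (Complex.exp (ew z))‖ < 1 := by
      have h2 : ‖f (Complex.exp (ew x))‖ < 1 := by
        rw [hx0, norm_zero]
        exact one_pos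
      exact hcont.norm.continuousAt.eventually_lt continuousAt_const h2
    filter_upwards [h1] with z hz
    unfold yf
    have h3 : Real.log ‖f (Complex.exp (ew z))‖ ≤ 0 := Real.log_nonpos (norm_nonneg _) hz.le
    nlinarith [mul_nonneg hc (neg_nonneg.2 h3)]

/-! ### Truncations -/

section

variable {y : ℝ × ℝ → ℝ} {W : Set (ℝ × ℝ)} {e : ℝ}

theorem YD.contDiff_trunc (hy : YD y W e) {K : ℝ → ℝ} (hK : ContDiff ℝ 2 K)
    (hKe : ∀ t, t ≤ e → K t = K e) : ContDiff ℝ 2 (fun x => K (y x)) := by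
  rw [contDiff_iff_contDiffAt]
  intro x
  by_cases hx : x ∈ W
  · exact hK.contDiffAt.comp x (hy.smooth x hx)
  · have h1 : (fun x => K (y x)) =ᶠ[𝓝 x] fun _ => K e := by
      filter_upwards [hy.off x hx] with z hz using hKe _ hz
    exact contDiffAt_const.congr_of_eventuallyEq h1

theorem d1_trunc {x : ℝ × ℝ} {K : ℝ → ℝ} (hy : DifferentiableAt ℝ y x)
    (hK : DifferentiableAt ℝ K (y x)) :
    d1 (fun z => K (y z)) x = deriv K (y x) * d1 y x := by
  have h := hK.hasDerivAt.comp_hasFDerivAt x hy.hasFDerivAt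
  have h2 : fderiv ℝ (fun z => K (y z)) x = deriv K (y x) • fderiv ℝ y x := h.fderiv
  unfold d1
  rw [h2]
  rfl

theorem d2_trunc {x : ℝ × ℝ} {K : ℝ → ℝ} (hy : DifferentiableAt ℝ y x)
    (hK : DifferentiableAt ℝ K (y x)) :
    d2 (fun z => K (y z)) x = deriv K (y x) * d2 y x := by
  have h := hK.hasDerivAt.comp_hasFDerivAt x hy.hasFDerivAt
  have h2 : fderiv ℝ (fun z => K (y z)) x = deriv K (y x) • fderiv ℝ y x := h.fderiv
  unfold d2
  rw [h2]
  rfl

/-- Laplacian of a truncation on `W` -/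
theorem YD.lap_trunc (hy : YD y W e) {K : ℝ → ℝ} (hK : ContDiff ℝ 2 K) {x : ℝ × ℝ} (hx : x ∈ W) :
    d1 (d1 (fun z => K (y z))) x + d2 (d2 (fun z => K (y z))) x =
      deriv (deriv K) (y x) * (d1 y x ^ 2 + d2 y x ^ 2) := by
  have hyd : ∀ z ∈ W, DifferentiableAt ℝ y z := fun z hz =>
    (hy.smooth z hz).differentiableAt (by norm_num)
  have hKd : Differentiable ℝ K := hK.differentiable (by norm_num)
  have hK1 : Differentiable ℝ (deriv K) := hK.differentiable_deriv_two
  have e1 : d1 (fun z => K (y z)) =ᶠ[𝓝 x] fun z => deriv K (y z) * d1 y z := by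
    filter_upwards [hy.isOpen.mem_nhds hx] with z hz using d1_trunc (hyd z hz) (hKd _)
  have e2 : d2 (fun z => K (y z)) =ᶠ[𝓝 x] fun z => deriv K (y z) * d2 y z := by
    filter_upwards [hy.isOpen.mem_nhds hx] with z hz using d2_trunc (hyd z hz) (hKd _)
  have hm : DifferentiableAt ℝ (fun z => deriv K (y z)) x := (hK1 _).comp x (hyd x hx)
  have a1 : d1 (d1 (fun z => K (y z))) x = d1 (fun z => deriv K (y z) * d1 y z) x :=
    d1_congr e1
  have a2 : d2 (d2 (fun z => K (y z))) x = d2 (fun z => deriv K (y z) * d2 y z) x :=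
    d2_congr e2
  rw [a1, a2, d1_mul hm ((hy.contDiffAt_d1 hx).differentiableAt one_ne_zero),
    d2_mul hm ((hy.contDiffAt_d2 hx).differentiableAt one_ne_zero),
    d1_trunc (hyd x hx) (hK1 _), d2_trunc (hyd x hx) (hK1 _)]
  have := hy.harm x hx
  linear_combination (deriv K (y x)) * this

/-- Laplacian of a truncation outside `W` -/
theorem YD.lap_trunc_off (hy : YD y W e) {K : ℝ → ℝ} (hKe : ∀ t, t ≤ e → K t = K e)
    {x : ℝ × ℝ} (hx : x ∉ W) :
    d1 (d1 (fun z => K (y z))) x + d2 (d2 (fun z => K (y z))) x = 0 := by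
  have h1 : ∀ᶠ z in 𝓝 x, (fun x => K (y x)) =ᶠ[𝓝 z] fun _ => K e := by
    have := (hy.off x hx).eventually_nhds
    filter_upwards [this] with z hz
    filter_upwards [hz] with v hv using hKe _ hv
  have e1 : d1 (fun z => K (y z)) =ᶠ[𝓝 x] fun _ => 0 := by
    filter_upwards [h1] with z hz
    unfold d1
    rw [hz.fderiv_eq]
    simp
  have e2 : d2 (fun z => K (y z)) =ᶠ[𝓝 x] fun _ => 0 := by
    filter_upwards [h1] with z hz
    unfold d2
    rw [hz.fderiv_eq]
    simp
  have a1 : d1 (d1 (fun z => K (y z))) x = d1 (fun _ => 0) x :=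
    d1_congr e1
  have a2 : d2 (d2 (fun z => K (y z))) x = d2 (fun _ => 0) x :=
    d2_congr e2
  rw [a1, a2]
  simp [d1, d2]

/-- the Laplacian of the truncation vanishes where `K'' (y) = 0` -/
theorem YD.lap_trunc_zero (hy : YD y W e) {K : ℝ → ℝ} (hK : ContDiff ℝ 2 K)
    (hKe : ∀ t, t ≤ e → K t = K e) {x : ℝ × ℝ} (hx : deriv (deriv K) (y x) = 0) :
    d1 (d1 (fun z => K (y z))) x + d2 (d2 (fun z => K (y z))) x = 0 := by
  by_cases hw : x ∈ W
  · rw [hy.lap_trunc hK hw, hx, zero_mul]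
  · exact hy.lap_trunc_off hKe hw

end

end Pool.Agent.H23.EH
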